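import Mathlib

/-!
# The addition theorem of Kneser

For finite nonempty subsets `A`, `B` of an abelian group with `H` the period (stabilizer)
of `A + B` one has `|A + H| + |B + H| ≤ |A + B| + |H|`.
-/

set_option autoImplicit false

namespace Pool.Agent.LibKneser

open Finset
open scoped Pointwise

variable {G : Type*} [AddCommGroup G] [DecidableEq G]

/-- The period (stabilizer) of a finite set, as a finite set. -/
def per (C : Finset G) : Finset G := (C - C).filter (fun g => ∀ c ∈ C, g + c ∈ C)

lemma mem_per {C : Finset G} (hC : C.Nonempty) {g : G} :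
    g ∈ per C ↔ ∀ c ∈ C, g + c ∈ C := by
  unfold per
  rw [Finset.mem_filter]
  constructor
  · exact fun h => h.2
  · intro h
    refine ⟨?_, h⟩
    obtain ⟨c, hc⟩ := hC
    rw [Finset.mem_sub]
    exact ⟨g + c, h c hc, c, hc, by abel⟩

lemma mem_per_iff {C : Finset G} (hC : C.Nonempty) {g : G} :
    g ∈ per C ↔ ∀ c, g + c ∈ C ↔ c ∈ C := by
  rw [mem_per hC]
  constructor
  · intro h c
    refine ⟨fun hgc => ?_, h c⟩
    have hinj : Function.Injective (fun c : G => g + c) := add_right_injective g
    have himg : C.image (fun c => g + c) = C := by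
      apply Finset.eq_of_subset_of_card_le
      · intro x hx
        rw [Finset.mem_image] at hx
        obtain ⟨c, hc, rfl⟩ := hx
        exact h c hc
      · rw [Finset.card_image_of_injective _ hinj]
    rw [← himg, Finset.mem_image] at hgc
    obtain ⟨c', hc', he⟩ := hgc
    rw [add_right_injective g he] at hc'
    exact hc'
  · intro h c hc
    exact (h c).2 hc

lemma zero_mem_per {C : Finset G} (hC : C.Nonempty) : (0 : G) ∈ per C := by
  rw [mem_per hC]; intro c hc; rwa [zero_add]

lemma neg_mem_per {C : Finset G} (hC : C.Nonempty) {g : G} (hg : g ∈ per C) : -g ∈ per C := by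
  rw [mem_per_iff hC] at hg ⊢
  intro c
  rw [← hg (-g + c)]
  simp

lemma add_mem_per {C : Finset G} (hC : C.Nonempty) {g g' : G} (hg : g ∈ per C)
    (hg' : g' ∈ per C) : g + g' ∈ per C := by
  rw [mem_per hC] at hg hg' ⊢
  intro c hc
  rw [add_assoc]
  exact hg _ (hg' c hc)

lemma inter_per_subset {C₁ C₂ : Finset G} (h₁ : C₁.Nonempty) (h₂ : C₂.Nonempty) :
    per C₁ ∩ per C₂ ⊆ per (C₁ ∪ C₂) := by
  intro g hg
  rw [Finset.mem_inter, mem_per h₁, mem_per h₂] at hg
  rw [mem_per (h₁.mono Finset.subset_union_left)]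
  intro c hc
  rw [Finset.mem_union] at hc ⊢
  exact hc.imp (hg.1 c) (hg.2 c)

/-- local count at a point of `C₂ \ C₁`. -/
lemma local_count {C₁ C₂ : Finset G} (h₁ : C₁.Nonempty) (h₂ : C₂.Nonempty) {x : G}
    (hx₂ : x ∈ C₂) (hx₁ : x ∉ C₁) :
    ((per C₁).filter (fun h => x + h ∈ C₂)).card + ((per C₂).filter (fun h => x + h ∉ C₁)).card ≤
      (C₂ \ C₁).card + (per C₁ ∩ per C₂).card := by
  set P := (per C₁).filter (fun h => x + h ∈ C₂) with hP
  set Q := (per C₂).filter (fun h => x + h ∉ C₁) with hQ
  have hinj : Function.Injective (fun c : G => x + c) := add_right_injective x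
  have hPim : (P.image (fun c => x + c)).card = P.card := Finset.card_image_of_injective _ hinj
  have hQim : (Q.image (fun c => x + c)).card = Q.card := Finset.card_image_of_injective _ hinj
  rw [← hPim, ← hQim, ← Finset.card_union_add_card_inter]
  apply add_le_add
  · apply Finset.card_le_card
    intro y hy
    rw [Finset.mem_union, Finset.mem_image, Finset.mem_image] at hy
    rw [Finset.mem_sdiff]
    rcases hy with ⟨h, hh, rfl⟩ | ⟨h, hh, rfl⟩
    · rw [hP, Finset.mem_filter] at hh
      refine ⟨hh.2, ?_⟩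
      rw [add_comm, (mem_per_iff h₁).1 hh.1 x]
      exact hx₁
    · rw [hQ, Finset.mem_filter] at hh
      refine ⟨?_, hh.2⟩
      rw [add_comm, (mem_per_iff h₂).1 hh.1 x]
      exact hx₂
  · rw [← Finset.image_inter _ _ hinj, Finset.card_image_of_injective _ hinj]
    apply Finset.card_le_card
    intro h hh
    rw [Finset.mem_inter, hP, hQ, Finset.mem_filter, Finset.mem_filter] at hh
    rw [Finset.mem_inter]
    exact ⟨hh.1.1, hh.2.1⟩

lemma filter_translate {C : Finset G} (hC : C.Nonempty) {h₀ : G} (hh₀ : h₀ ∈ per C)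
    (p : G → Prop) [DecidablePred p] :
    ((per C).filter (fun h => p (h₀ + h))).card = ((per C).filter p).card := by
  have hinj : Function.Injective (fun c : G => h₀ + c) := add_right_injective h₀
  rw [← Finset.card_image_of_injective _ hinj]
  congr 1
  ext y
  rw [Finset.mem_image, Finset.mem_filter]
  constructor
  · rintro ⟨h, hh, rfl⟩
    rw [Finset.mem_filter] at hh
    exact ⟨add_mem_per hC hh₀ hh.1, hh.2⟩
  · rintro ⟨hy, hpy⟩
    refine ⟨-h₀ + y, ?_, by simp⟩
    rw [Finset.mem_filter]
    refine ⟨add_mem_per hC (neg_mem_per hC hh₀) hy, ?_⟩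
    simpa using hpy

/-- The combinatorial core. -/
lemma step {C₁ C₂ : Finset G} (h₁ : C₁.Nonempty) (h₂ : C₂.Nonempty)
    (ha : (C₂ \ C₁).card + (per C₁ ∩ per C₂).card < (per C₁).card)
    (hb : (C₁ \ C₂).card + (per C₁ ∩ per C₂).card < (per C₂).card)
    {x : G} (hx₂ : x ∈ C₂) (hx₁ : x ∉ C₁) {k : G} (hk : k ∈ per C₂) (hxk : x + k ∈ C₁) :
    False := by
  have hc := local_count h₁ h₂ hx₂ hx₁
  -- a point of `per C₁` leaving `C₂`
  obtain ⟨h, hh, hxh⟩ : ∃ h ∈ per C₁, x + h ∉ C₂ := by
    by_contra hcon
    push Not at hcon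
    have : (per C₁).filter (fun h => x + h ∈ C₂) = per C₁ := by
      rw [Finset.filter_eq_self]
      exact hcon
    rw [this] at hc
    omega
  set y := x + h + k with hy
  have hy₁ : y ∈ C₁ := by
    rw [hy, show x + h + k = h + (x + k) by abel, (mem_per_iff h₁).1 hh]
    exact hxk
  have hy₂ : y ∉ C₂ := by
    rw [hy, show x + h + k = k + (x + h) by abel, (mem_per_iff h₂).1 hk]
    exact hxh
  have hc' := local_count h₂ h₁ hy₁ hy₂
  rw [Finset.inter_comm (per C₂)] at hc'
  have e1 : ((per C₂).filter (fun g => y + g ∈ C₁)).card =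
      ((per C₂).filter (fun g => x + g ∈ C₁)).card := by
    rw [← filter_translate h₂ hk (fun g => x + g ∈ C₁)]
    congr 1
    apply Finset.filter_congr
    intro g _
    rw [hy, show x + h + k + g = h + (x + (k + g)) by abel, (mem_per_iff h₁).1 hh]
  have e2 : ((per C₁).filter (fun g => y + g ∉ C₂)).card =
      ((per C₁).filter (fun g => x + g ∉ C₂)).card := by
    rw [← filter_translate h₁ hh (fun g => x + g ∉ C₂)]
    congr 1
    apply Finset.filter_congr
    intro g _
    rw [hy, show x + h + k + g = k + (x + (h + g)) by abel, (mem_per_iff h₂).1 hk]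
  have f1 := Finset.card_filter_add_card_filter_not (s := per C₂) (fun g => x + g ∈ C₁)
  have f2 := Finset.card_filter_add_card_filter_not (s := per C₁) (fun g => x + g ∈ C₂)
  omega

/-- Kneser's lemma on unions. -/
lemma union_lemma {C₁ C₂ : Finset G} (h₁ : C₁.Nonempty) (h₂ : C₂.Nonempty) :
    C₁.card + (per C₁).card ≤ (C₁ ∪ C₂).card + (per (C₁ ∪ C₂)).card ∨
      C₂.card + (per C₂).card ≤ (C₁ ∪ C₂).card + (per (C₁ ∪ C₂)).card := by
  by_contra hcon
  push Not at hcon
  obtain ⟨hc1, hc2⟩ := hcon
  have hj : (per C₁ ∩ per C₂).card ≤ (per (C₁ ∪ C₂)).card :=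
    Finset.card_le_card (inter_per_subset h₁ h₂)
  have u1 : (C₁ ∪ C₂).card = C₁.card + (C₂ \ C₁).card := by
    rw [← Finset.card_union_of_disjoint Finset.disjoint_sdiff, Finset.union_sdiff_self_eq_union]
  have u2 : (C₁ ∪ C₂).card = C₂.card + (C₁ \ C₂).card := by
    rw [← Finset.card_union_of_disjoint Finset.disjoint_sdiff, Finset.union_sdiff_self_eq_union,
      Finset.union_comm]
  have ha : (C₂ \ C₁).card + (per C₁ ∩ per C₂).card < (per C₁).card := by omega
  have hb : (C₁ \ C₂).card + (per C₁ ∩ per C₂).card < (per C₂).card := by omega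
  have hne1 : ¬ C₂ ⊆ C₁ := by
    intro h
    rw [Finset.union_eq_left.2 h] at hc1
    exact lt_irrefl _ hc1
  have hne2 : ¬ C₁ ⊆ C₂ := by
    intro h
    rw [Finset.union_eq_right.2 h] at hc2
    exact lt_irrefl _ hc2
  obtain ⟨x, hx₂, hx₁⟩ := Finset.not_subset.1 hne1
  obtain ⟨y, hy₁, hy₂⟩ := Finset.not_subset.1 hne2
  by_cases hx : ∃ k ∈ per C₂, x + k ∈ C₁
  · obtain ⟨k, hk, hxk⟩ := hx
    exact step h₁ h₂ ha hb hx₂ hx₁ hk hxk
  by_cases hy : ∃ k ∈ per C₁, y + k ∈ C₂
  · obtain ⟨k, hk, hyk⟩ := hy
    refine step h₂ h₁ ?_ ?_ hy₁ hy₂ hk hyk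
    · rw [Finset.inter_comm]; exact hb
    · rw [Finset.inter_comm]; exact ha
  push Not at hx hy
  have c1 := local_count h₁ h₂ hx₂ hx₁
  have c2 := local_count h₂ h₁ hy₁ hy₂
  rw [Finset.inter_comm (per C₂)] at c2
  have s1 : (per C₂).filter (fun h => x + h ∉ C₁) = per C₂ := by
    rw [Finset.filter_eq_self]; exact hx
  have s2 : (per C₁).filter (fun h => y + h ∉ C₂) = per C₁ := by
    rw [Finset.filter_eq_self]; exact hy
  rw [s1] at c1
  rw [s2] at c2
  omega

/-- For each `a + b` there is a good subset of `A + B` containing it. -/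
lemma exists_good (n : ℕ) : ∀ (A B : Finset G), B.card = n → ∀ a ∈ A, ∀ b ∈ B,
    ∃ C, C ⊆ A + B ∧ a + b ∈ C ∧ A.card + B.card ≤ C.card + (per C).card := by
  induction n using Nat.strong_induction_on with
  | _ n ih =>
    intro A B hn a ha b hb
    by_cases hall : ∀ e ∈ A, ∀ y ∈ B, y - b + e ∈ A
    · refine ⟨A.image (fun x => x + b), ?_, ?_, ?_⟩
      · intro x hx
        rw [Finset.mem_image] at hx
        obtain ⟨c, hc, rfl⟩ := hx
        exact Finset.add_mem_add hc hb
      · exact Finset.mem_image_of_mem _ ha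
      · have hcard : (A.image (fun x => x + b)).card = A.card :=
          Finset.card_image_of_injective _ (add_left_injective b)
        rw [hcard]
        apply Nat.add_le_add_left
        rw [← Finset.card_image_of_injective B (sub_left_injective (b := b))]
        apply Finset.card_le_card
        intro z hz
        rw [Finset.mem_image] at hz
        obtain ⟨y, hy, rfl⟩ := hz
        rw [mem_per ⟨_, Finset.mem_image_of_mem (fun x => x + b) ha⟩]
        intro c hc
        rw [Finset.mem_image] at hc ⊢
        obtain ⟨e, he, rfl⟩ := hc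
        exact ⟨y - b + e, hall e he y hy, by abel⟩
    · push Not at hall
      obtain ⟨e, he, y, hy, hye⟩ := hall
      set A' := A ∪ B.image (fun x => x + (e - b)) with hA'
      set B' := (A ∩ B.image (fun x => x + (e - b))).image (fun x => x + (b - e)) with hB'
      have hB'B : B' ⊆ B := by
        intro x hx
        rw [hB', Finset.mem_image] at hx
        obtain ⟨z, hz, rfl⟩ := hx
        rw [Finset.mem_inter, Finset.mem_image] at hz
        obtain ⟨_, w, hw, rfl⟩ := hz
        rw [show w + (e - b) + (b - e) = w by abel]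
        exact hw
      have hyB' : y ∉ B' := by
        intro h
        rw [hB', Finset.mem_image] at h
        obtain ⟨z, hz, hzy⟩ := h
        rw [Finset.mem_inter] at hz
        apply hye
        rw [← hzy, show z + (b - e) - b + e = z by abel]
        exact hz.1
      have hlt : B'.card < n := by
        rw [← hn]
        exact Finset.card_lt_card ⟨hB'B, fun h => hyB' (h hy)⟩
      have hcard : A'.card + B'.card = A.card + B.card := by
        rw [hA', hB', Finset.card_image_of_injective _ (add_left_injective _),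
          Finset.card_union_add_card_inter, Finset.card_image_of_injective _ (add_left_injective _)]
      have hbB' : b ∈ B' := by
        rw [hB', Finset.mem_image]
        refine ⟨e, ?_, by abel⟩
        rw [Finset.mem_inter]
        exact ⟨he, Finset.mem_image.2 ⟨b, hb, by abel⟩⟩
      obtain ⟨C, hC, hab, hle⟩ := ih B'.card hlt A' B' rfl a
        (by rw [hA']; exact Finset.mem_union_left _ ha) b hbB'
      refine ⟨C, hC.trans ?_, hab, by omega⟩
      intro z hz
      rw [Finset.mem_add] at hz
      obtain ⟨u, hu, v, hv, rfl⟩ := hz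
      rw [hA', Finset.mem_union] at hu
      rcases hu with hu | hu
      · exact Finset.add_mem_add hu (hB'B hv)
      · rw [Finset.mem_image] at hu
        obtain ⟨w, hw, rfl⟩ := hu
        rw [hB', Finset.mem_image] at hv
        obtain ⟨t, ht, rfl⟩ := hv
        rw [Finset.mem_inter] at ht
        rw [show w + (e - b) + (t + (b - e)) = t + w by abel]
        exact Finset.add_mem_add ht.1 hw

/-- Kneser's theorem, first form: `|A| + |B| ≤ |A + B| + |H|`. -/
theorem kneser_weak {A B : Finset G} (hA : A.Nonempty) (hB : B.Nonempty) :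
    A.card + B.card ≤ (A + B).card + (per (A + B)).card := by
  classical
  have hex : ∀ p : G × G, ∃ C : Finset G, p ∈ A ×ˢ B →
      C ⊆ A + B ∧ p.1 + p.2 ∈ C ∧ A.card + B.card ≤ C.card + (per C).card := by
    intro p
    by_cases hp : p ∈ A ×ˢ B
    · rw [Finset.mem_product] at hp
      obtain ⟨C, hC⟩ := exists_good _ A B rfl p.1 hp.1 p.2 hp.2
      exact ⟨C, fun _ => hC⟩
    · exact ⟨∅, fun h => absurd h hp⟩
  choose f hf using hex
  have key : ∀ S : Finset (G × G), S.Nonempty → S ⊆ A ×ˢ B →
      (S.biUnion f).Nonempty ∧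
      A.card + B.card ≤ (S.biUnion f).card + (per (S.biUnion f)).card := by
    intro S hS
    induction hS using Finset.Nonempty.cons_induction with
    | singleton a =>
      intro hsub
      have ha := hf a (hsub (Finset.mem_singleton_self a))
      rw [Finset.singleton_biUnion]
      exact ⟨⟨_, ha.2.1⟩, ha.2.2⟩
    | cons a s has hs ih =>
      intro hsub
      have hsub' : s ⊆ A ×ˢ B := fun x hx => hsub (Finset.mem_cons_of_mem hx)
      have ha := hf a (hsub (Finset.mem_cons_self a s))
      obtain ⟨ih1, ih2⟩ := ih hsub'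
      rw [Finset.cons_eq_insert, Finset.biUnion_insert]
      refine ⟨ih1.mono Finset.subset_union_right, ?_⟩
      rcases union_lemma (C₁ := f a) (C₂ := s.biUnion f) ⟨_, ha.2.1⟩ ih1 with h | h
      · exact ha.2.2.trans h
      · exact ih2.trans h
  obtain ⟨_, h⟩ := key (A ×ˢ B) (hA.product hB) (Finset.Subset.refl _)
  have hunion : (A ×ˢ B).biUnion f = A + B := by
    apply Finset.Subset.antisymm
    · intro x hx
      rw [Finset.mem_biUnion] at hx
      obtain ⟨p, hp, hx⟩ := hx
      exact (hf p hp).1 hx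
    · intro x hx
      rw [Finset.mem_add] at hx
      obtain ⟨a, ha, b, hb, rfl⟩ := hx
      rw [Finset.mem_biUnion]
      have hp : (a, b) ∈ A ×ˢ B := Finset.mem_product.2 ⟨ha, hb⟩
      exact ⟨(a, b), hp, (hf _ hp).2.1⟩
  rw [hunion] at h
  exact h

lemma add_per {C : Finset G} (hC : C.Nonempty) : C + per C = C := by
  apply Finset.Subset.antisymm
  · intro x hx
    rw [Finset.mem_add] at hx
    obtain ⟨c, hc, h, hh, rfl⟩ := hx
    rw [add_comm]
    exact (mem_per hC).1 hh c hc
  · intro x hx
    rw [Finset.mem_add]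
    exact ⟨x, hx, 0, zero_mem_per hC, add_zero x⟩

/-- Kneser's theorem: `|A + H| + |B + H| ≤ |A + B| + |H|` with `H` the period of `A + B`. -/
theorem kneser {A B : Finset G} (hA : A.Nonempty) (hB : B.Nonempty) :
    (A + per (A + B)).card + (B + per (A + B)).card ≤ (A + B).card + (per (A + B)).card := by
  have hAB : (A + B).Nonempty := hA.add hB
  have hH : (per (A + B)).Nonempty := ⟨0, zero_mem_per hAB⟩
  have h := kneser_weak (hA.add hH) (hB.add hH)
  have e : A + per (A + B) + (B + per (A + B)) = A + B := by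
    have : A + per (A + B) + (B + per (A + B)) = A + B + per (A + B) + per (A + B) := by abel
    rw [this, add_per hAB, add_per hAB]
  rw [e] at h
  exact h

end Pool.Agent.LibKneser
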